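import Pool.Agent.TF82.Base

/-! Erdos-Gallai: long paths with two given ends, with a set of exceptional vertices. -/

namespace Pool.Agent.H19P

open List Pool.Agent.TF82

universe u

variable {V : Type u} [DecidableEq V]

/-- `G[Z] + xy` is 2-connected. -/
def TC (G : SimpleGraph V) (Z : Finset V) (x y : V) : Prop :=
  (∀ z ∈ Z, z ≠ x → z ≠ y → ∀ u ∈ Z, u ≠ z →
    Reach G (Z.erase z) u x ∨ Reach G (Z.erase z) u y) ∧
  (∀ u ∈ Z, u ≠ x → Reach G (Z.erase x) u y) ∧
  (∀ u ∈ Z, u ≠ y → Reach G (Z.erase y) u x)

omit [DecidableEq V] in
theorem reach_ne {G : SimpleGraph V} {U : Finset V} {a b : V} (h : Reach G U a b) (hab : a ≠ b) :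
    a ∈ U ∧ b ∈ U := by
  constructor
  · rcases Relation.ReflTransGen.cases_head h with h1 | ⟨c, h1, -⟩
    · exact absurd h1 hab
    · exact h1.1
  · rcases Relation.ReflTransGen.cases_tail h with h1 | ⟨c, -, h1⟩
    · exact absurd h1.symm hab
    · exact h1.2.1

/-- leaving a set `Q` whose only outside neighbours in `Z` are `x` and `b` -/
theorem exit_reach {G : SimpleGraph V} {W Q ZQ : Finset V} {x b t : V}
    (hZQ : ZQ = insert x (insert b Q))
    (hcl : ∀ v ∈ Q, ∀ w ∈ W, G.Adj v w → w ∈ Q ∨ w = b ∨ w = x)
    (htQ : t ∉ Q) {v : V} (h : Reach G W v t) :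
    v ∈ Q → (x ∈ W ∧ Reach G (W ∩ ZQ) v x) ∨ (b ∈ W ∧ Reach G (W ∩ ZQ) v b) := by
  unfold Reach at h
  induction h using Relation.ReflTransGen.head_induction_on with
  | refl => intro hv; exact absurd hv htQ
  | @head a c hac hct ih =>
    intro ha
    have haZ : a ∈ W ∩ ZQ := by
      rw [Finset.mem_inter, hZQ]
      exact ⟨hac.1, by simp [ha]⟩
    rcases hcl a ha c hac.2.1 hac.2.2 with h1 | h1 | h1
    · have hcZ : c ∈ W ∩ ZQ := by
        rw [Finset.mem_inter, hZQ]
        exact ⟨hac.2.1, by simp [h1]⟩
      rcases ih h1 with h2 | h2
      · exact Or.inl ⟨h2.1, Relation.ReflTransGen.head ⟨haZ, hcZ, hac.2.2⟩ h2.2⟩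
      · exact Or.inr ⟨h2.1, Relation.ReflTransGen.head ⟨haZ, hcZ, hac.2.2⟩ h2.2⟩
    · subst h1
      have hcZ : c ∈ W ∩ ZQ := by
        rw [Finset.mem_inter, hZQ]
        exact ⟨hac.2.1, by simp⟩
      exact Or.inr ⟨hac.2.1, Relation.ReflTransGen.single ⟨haZ, hcZ, hac.2.2⟩⟩
    · subst h1
      have hcZ : c ∈ W ∩ ZQ := by
        rw [Finset.mem_inter, hZQ]
        exact ⟨hac.2.1, by simp⟩
      exact Or.inl ⟨hac.2.1, Relation.ReflTransGen.single ⟨haZ, hcZ, hac.2.2⟩⟩

omit [DecidableEq V] in
/-- a map that sends edges to edges or to single vertices preserves reachability -/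
theorem retract_reach {G G' : SimpleGraph V} {W W' : Finset V} (r : V → V)
    (hr : ∀ v ∈ W, ∀ w ∈ W, G.Adj v w → r v = r w ∨ (r v ∈ W' ∧ r w ∈ W' ∧ G'.Adj (r v) (r w)))
    {v w : V} (h : Reach G W v w) : Reach G' W' (r v) (r w) := by
  unfold Reach at *
  induction h with
  | refl => exact Relation.ReflTransGen.refl
  | @tail a c _ hac ih =>
    rcases hr a hac.1 c hac.2.1 hac.2.2 with h1 | h1
    · rwa [← h1]
    · exact Relation.ReflTransGen.tail ih h1

/-- `G` with the edge `x b` added -/
def addE (G : SimpleGraph V) (x b : V) : SimpleGraph V :=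
  G ⊔ SimpleGraph.fromEdgeSet {s(x, b)}

omit [DecidableEq V] in
theorem addE_adj {G : SimpleGraph V} {x b v w : V} (hxb : x ≠ b) :
    (addE G x b).Adj v w ↔ G.Adj v w ∨ (v = x ∧ w = b) ∨ (v = b ∧ w = x) := by
  unfold addE
  rw [SimpleGraph.sup_adj, SimpleGraph.fromEdgeSet_adj]
  simp only [Set.mem_singleton_iff, Sym2.eq_iff, ne_eq]
  constructor
  · rintro (h | ⟨h, -⟩)
    · exact Or.inl h
    · exact Or.inr h
  · rintro (h | h)
    · exact Or.inl h
    · refine Or.inr ⟨h, ?_⟩
      rcases h with ⟨rfl, rfl⟩ | ⟨rfl, rfl⟩
      · exact hxb
      · exact hxb.symm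

omit [DecidableEq V] in
/-- gluing two paths at a common end -/
theorem glue_path {G : SimpleGraph V} {q1 q2 : List V} {x b y : V}
    (h11 : q1.Nodup) (h12 : q1.IsChain G.Adj) (h13 : q1.head? = some x)
    (h14 : q1.getLast? = some b)
    (h21 : (b :: q2).Nodup) (h22 : (b :: q2).IsChain G.Adj) (h24 : (b :: q2).getLast? = some y)
    (hd : ∀ v ∈ q1, v ∉ q2) :
    (q1 ++ q2).Nodup ∧ (q1 ++ q2).IsChain G.Adj ∧ (q1 ++ q2).head? = some x ∧
      (q1 ++ q2).getLast? = some y := by
  refine ⟨?_, ?_, ?_, ?_⟩
  · rw [List.nodup_append]
    refine ⟨h11, (List.nodup_cons.1 h21).2, ?_⟩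
    rintro v hv w hw rfl
    exact hd v hv hw
  · rw [List.isChain_append]
    refine ⟨h12, h22.tail, ?_⟩
    intro v hv w hw
    rw [h14] at hv
    simp only [Option.mem_def, Option.some.injEq] at hv
    subst hv
    rcases q2 with _ | ⟨c, q2⟩
    · simp at hw
    · simp only [List.head?_cons, Option.mem_def, Option.some.injEq] at hw
      subst hw
      exact (List.isChain_cons_cons.1 h22).1
  · rw [List.head?_append, h13]; simp
  · rcases q2 with _ | ⟨c, q2⟩
    · simp only [List.append_nil]
      rw [h14]
      simpa using h24
    · rw [List.getLast?_append]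
      rw [List.getLast?_cons_cons] at h24
      rw [h24]
      simp

theorem eg_aux : ∀ (n : ℕ) (G : SimpleGraph V) (Z : Finset V) (x y : V) (S : Finset V) (d : ℕ),
    Z.card ≤ n → x ∈ Z → y ∈ Z → x ≠ y → TC G Z x y →
    (∃ u ∈ Z, u ≠ x ∧ u ≠ y ∧ u ∉ S) →
    (∀ u ∈ Z, u ≠ x → u ≠ y → u ∉ S →
      ∃ N : Finset V, N ⊆ Z ∧ (∀ w ∈ N, G.Adj u w) ∧ d ≤ N.card) →
    ∃ q : List V, q.Nodup ∧ q.IsChain G.Adj ∧ q.head? = some x ∧ q.getLast? = some y ∧
      (∀ v ∈ q, v ∈ Z) ∧ d + 1 ≤ q.length + S.card := by
  classical
  intro n
  induction n with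
  | zero =>
    intro G Z x y S d hn hx
    have : Z = ∅ := Finset.card_eq_zero.1 (by omega)
    rw [this] at hx
    simp at hx
  | succ n ih =>
    intro G Z x y S d hn hx hy hxy hTC hex hdeg
    obtain ⟨hT1, hT2, hT3⟩ := hTC
    obtain ⟨u0, hu0Z, hu0x, hu0y, hu0S⟩ := hex
    -- a neighbour `x'` of `x`, different from `y`
    obtain ⟨x', hx'Z, hx'y, hxx'⟩ : ∃ x' ∈ Z, x' ≠ y ∧ G.Adj x x' := by
      have h1 := (hT3 u0 hu0Z hu0y).symm
      rcases Relation.ReflTransGen.cases_head h1 with h2 | ⟨c, h2, -⟩
      · exact absurd h2.symm hu0x
      · exact ⟨c, Finset.mem_of_mem_erase h2.2.1, Finset.ne_of_mem_erase h2.2.1, h2.2.2⟩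
    have hx'x : x' ≠ x := hxx'.ne'
    set H := Z.erase x with hH
    have hHcard : H.card + 1 = Z.card := Finset.card_erase_add_one hx
    have hx'H : x' ∈ H := Finset.mem_erase.2 ⟨hx'x, hx'Z⟩
    have hyH : y ∈ H := Finset.mem_erase.2 ⟨hxy.symm, hy⟩
    by_cases hI : TC G H x' y
    · -- case (I)
      by_cases hIa : ∃ u ∈ H, u ≠ x' ∧ u ≠ y ∧ u ∉ S
      · obtain ⟨q, h1, h2, h3, h4, h5, h6⟩ := ih G H x' y S (d - 1) (by omega) hx'H hyH hx'y hI hIa
          (by
            intro u hu hux' huy huS
            obtain ⟨N, hN1, hN2, hN3⟩ := hdeg u (Finset.mem_of_mem_erase hu)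
              (Finset.ne_of_mem_erase hu) huy huS
            refine ⟨N.erase x, ?_, ?_, ?_⟩
            · exact Finset.erase_subset_erase _ hN1
            · intro w hw
              exact hN2 w (Finset.mem_of_mem_erase hw)
            · have := Finset.pred_card_le_card_erase (s := N) (a := x)
              omega)
        refine ⟨x :: q, ?_, ?_, by simp, ?_, ?_, ?_⟩
        · rw [List.nodup_cons]
          exact ⟨fun h => (Finset.ne_of_mem_erase (h5 x h)) rfl, h1⟩
        · rw [List.isChain_cons]
          refine ⟨?_, h2⟩
          intro w hw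
          rw [h3] at hw
          simp only [Option.mem_def, Option.some.injEq] at hw
          subst hw
          exact hxx'
        · rcases q with _ | ⟨c, q⟩
          · simp at h3
          · rw [List.getLast?_cons_cons]
            exact h4
        · intro v hv
          rcases List.mem_cons.1 hv with h | h
          · rw [h]; exact hx
          · exact Finset.mem_of_mem_erase (h5 v h)
        · simp only [List.length_cons]
          omega
      · push Not at hIa
        obtain ⟨q, h1, h2, h3, h4, h5⟩ := (hT2 x' hx'Z hx'x).path hx'H
        have hlen : 2 ≤ q.length := by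
          rcases q with _ | ⟨c, _ | ⟨c', q⟩⟩
          · simp at h3
          · simp at h3 h4
            exact absurd (h3.symm.trans h4) hx'y
          · simp
        have hu0 : u0 = x' := by
          by_contra hne
          exact hu0S (hIa u0 (Finset.mem_erase.2 ⟨hu0x, hu0Z⟩) hne hu0y)
        obtain ⟨N, hN1, hN2, hN3⟩ := hdeg u0 hu0Z hu0x hu0y hu0S
        have hNsub : N ⊆ insert x (insert y S) := by
          intro w hw
          by_cases hwx : w = x
          · simp [hwx]
          · by_cases hwy : w = y
            · simp [hwy]
            · have h6 : w ≠ x' := by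
                rw [← hu0]
                exact (hN2 w hw).ne'
              have h7 := hIa w (Finset.mem_erase.2 ⟨hwx, hN1 hw⟩) h6 hwy
              simp [h7]
        have hNcard : N.card ≤ S.card + 2 := by
          refine (Finset.card_le_card hNsub).trans ?_
          refine (Finset.card_insert_le _ _).trans ?_
          have := Finset.card_insert_le y S
          omega
        refine ⟨x :: q, ?_, ?_, by simp, ?_, ?_, ?_⟩
        · rw [List.nodup_cons]
          exact ⟨fun h => (Finset.ne_of_mem_erase (h5 x h)) rfl, h1⟩
        · rw [List.isChain_cons]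
          refine ⟨?_, h2⟩
          intro w hw
          rw [h3] at hw
          simp only [Option.mem_def, Option.some.injEq] at hw
          subst hw
          exact hxx'
        · rcases q with _ | ⟨c, q⟩
          · simp at h3
          · rw [List.getLast?_cons_cons]
            exact h4
        · intro v hv
          rcases List.mem_cons.1 hv with h | h
          · rw [h]; exact hx
          · exact Finset.mem_of_mem_erase (h5 v h)
        · simp only [List.length_cons]
          omega
    · -- case (II)
      obtain ⟨b, hbH, u, huH, hub, hrey, hrex'⟩ : ∃ b ∈ H, ∃ u ∈ H, u ≠ b ∧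
          ¬ Reach G (H.erase b) u y ∧ (b = y → ¬ Reach G (H.erase b) u x') := by
        unfold TC at hI
        simp only [not_and_or] at hI
        rcases hI with h | h | h
        · push Not at h
          obtain ⟨z, hz, hzx', hzy, u, hu, huz, h1, h2⟩ := h
          exact ⟨z, hz, u, hu, huz, h2, fun h => absurd h hzy⟩
        · push Not at h
          obtain ⟨u, hu, hux', h1⟩ := h
          exact ⟨x', hx'H, u, hu, hux', h1, fun h => absurd h hx'y⟩
        · push Not at h
          obtain ⟨u, hu, huy, h1⟩ := h
          refine ⟨y, hyH, u, hu, huy, ?_, fun _ => h1⟩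
          intro h2
          exact (Finset.ne_of_mem_erase (reach_ne h2 huy).2) rfl
      have hbZ : b ∈ Z := Finset.mem_of_mem_erase hbH
      have hbx : b ≠ x := Finset.ne_of_mem_erase hbH
      set Q := (H.erase b).filter (fun v => Reach G (H.erase b) u v) with hQ
      have huQ : u ∈ Q := by
        rw [hQ, Finset.mem_filter]
        exact ⟨Finset.mem_erase.2 ⟨hub, huH⟩, Relation.ReflTransGen.refl⟩
      have hQsub : ∀ v ∈ Q, v ∈ Z ∧ v ≠ x ∧ v ≠ b := by
        intro v hv
        rw [hQ, Finset.mem_filter, Finset.mem_erase, hH, Finset.mem_erase] at hv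
        exact ⟨hv.1.2.2, hv.1.2.1, hv.1.1⟩
      have hyQ : y ∉ Q := by
        intro h
        rw [hQ, Finset.mem_filter] at h
        exact hrey h.2
      have hbQ : b ∉ Q := fun h => (hQsub b h).2.2 rfl
      have hxQ : x ∉ Q := fun h => (hQsub x h).2.1 rfl
      have hcl : ∀ v ∈ Q, ∀ w ∈ Z, G.Adj v w → w ∈ Q ∨ w = b ∨ w = x := by
        intro v hv w hw hvw
        by_cases hwx : w = x
        · exact Or.inr (Or.inr hwx)
        · by_cases hwb : w = b
          · exact Or.inr (Or.inl hwb)
          · left
            have hwH : w ∈ H.erase b := Finset.mem_erase.2 ⟨hwb, Finset.mem_erase.2 ⟨hwx, hw⟩⟩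
            rw [hQ, Finset.mem_filter] at hv ⊢
            exact ⟨hwH, Relation.ReflTransGen.tail hv.2 ⟨hv.1, hwH, hvw⟩⟩
      set ZQ := insert x (insert b Q) with hZQ
      have hZQZ : ZQ ⊆ Z := by
        intro v hv
        rw [hZQ, Finset.mem_insert, Finset.mem_insert] at hv
        rcases hv with h | h | h
        · rw [h]; exact hx
        · rw [h]; exact hbZ
        · exact (hQsub v h).1
      have hinter : ∀ z, (Z.erase z) ∩ ZQ = ZQ.erase z := by
        intro z
        ext v
        rw [Finset.mem_inter, Finset.mem_erase, Finset.mem_erase]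
        constructor
        · rintro ⟨h1, h2⟩
          exact ⟨h1.1, h2⟩
        · rintro ⟨h1, h2⟩
          exact ⟨⟨h1, hZQZ h2⟩, h2⟩
      have hcl' : ∀ z, ∀ v ∈ Q, ∀ w ∈ Z.erase z, G.Adj v w → w ∈ Q ∨ w = b ∨ w = x :=
        fun z v hv w hw => hcl v hv w (Finset.mem_of_mem_erase hw)
      -- `Q` is joined to `b` without `x` and to `x` without `b`
      have hQb : ∀ v ∈ Q, Reach G (ZQ.erase x) v b := by
        intro v hv
        have h1 := hT2 v (hQsub v hv).1 (hQsub v hv).2.1
        rcases exit_reach hZQ (hcl' x) hyQ h1 hv with h2 | h2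
        · exact absurd h2.1 (by simp)
        · rw [← hinter x]
          exact h2.2
      have hQx : ∀ v ∈ Q, Reach G (ZQ.erase b) v x := by
        intro v hv
        have h1 : Reach G (Z.erase b) v x ∨ Reach G (Z.erase b) v y := by
          by_cases hby : b = y
          · left
            rw [hby]
            exact hT3 v (hQsub v hv).1 (by rw [← hby]; exact (hQsub v hv).2.2)
          · exact hT1 b hbZ hbx hby v (hQsub v hv).1 (hQsub v hv).2.2
        have h3 : ∀ t, t ∉ Q → Reach G (Z.erase b) v t → Reach G (ZQ.erase b) v x := by
          intro t ht h1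
          rcases exit_reach hZQ (hcl' b) ht h1 hv with h2 | h2
          · rw [← hinter b]
            exact h2.2
          · exact absurd h2.1 (by simp)
        rcases h1 with h1 | h1
        · exact h3 x hxQ h1
        · exact h3 y hyQ h1
      have hcardlt : ZQ.card < Z.card := by
        apply Finset.card_lt_card
        rw [Finset.ssubset_iff_of_subset hZQZ]
        by_cases hby : b = y
        · refine ⟨x', hx'Z, ?_⟩
          rw [hZQ, Finset.mem_insert, Finset.mem_insert]
          rintro (h | h | h)
          · exact hx'x h
          · exact hx'y (h.trans hby)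
          · rw [hQ, Finset.mem_filter] at h
            exact hrex' hby h.2
        · refine ⟨y, hy, ?_⟩
          rw [hZQ, Finset.mem_insert, Finset.mem_insert]
          rintro (h | h | h)
          · exact hxy h.symm
          · exact hby h.symm
          · exact hyQ h
      by_cases hIIa : ∃ v ∈ Q, v ∉ S
      · -- case (IIa)
        have hTCQ : TC G ZQ x b := by
          refine ⟨?_, ?_, ?_⟩
          · intro z hz hzx hzb v hv hvz
            have hzQ : z ∈ Q := by
              rw [hZQ, Finset.mem_insert, Finset.mem_insert] at hz
              tauto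
            rw [hZQ, Finset.mem_insert, Finset.mem_insert] at hv
            rcases hv with h | h | h
            · rw [h]; exact Or.inl Relation.ReflTransGen.refl
            · rw [h]; exact Or.inr Relation.ReflTransGen.refl
            · have h1 := hT1 z (hQsub z hzQ).1 hzx (fun h => hyQ (h ▸ hzQ)) v (hQsub v h).1 hvz
              have h3 : ∀ t, t ∉ Q → Reach G (Z.erase z) v t →
                  Reach G (ZQ.erase z) v x ∨ Reach G (ZQ.erase z) v b := by
                intro t ht h1
                rw [← hinter z]
                rcases exit_reach hZQ (hcl' z) ht h1 h with h2 | h2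
                · exact Or.inl h2.2
                · exact Or.inr h2.2
              rcases h1 with h1 | h1
              · exact h3 x hxQ h1
              · exact h3 y hyQ h1
          · intro v hv hvx
            rw [hZQ, Finset.mem_insert, Finset.mem_insert] at hv
            rcases hv with h | h | h
            · exact absurd h hvx
            · rw [h]; exact Relation.ReflTransGen.refl
            · exact hQb v h
          · intro v hv hvb
            rw [hZQ, Finset.mem_insert, Finset.mem_insert] at hv
            rcases hv with h | h | h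
            · rw [h]; exact Relation.ReflTransGen.refl
            · exact absurd h hvb
            · exact hQx v h
        obtain ⟨q1, h11, h12, h13, h14, h15, h16⟩ := ih G ZQ x b S d (by omega)
          (by rw [hZQ]; simp) (by rw [hZQ]; simp) hbx.symm hTCQ
          (by
            obtain ⟨v, hv, hvS⟩ := hIIa
            exact ⟨v, by rw [hZQ]; simp [hv], (hQsub v hv).2.1, (hQsub v hv).2.2, hvS⟩)
          (by
            intro v hv hvx hvb hvS
            have hvQ : v ∈ Q := by
              rw [hZQ, Finset.mem_insert, Finset.mem_insert] at hv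
              tauto
            obtain ⟨N, hN1, hN2, hN3⟩ := hdeg v (hQsub v hvQ).1 hvx (fun h => hyQ (h ▸ hvQ)) hvS
            refine ⟨N, ?_, hN2, hN3⟩
            intro w hw
            rw [hZQ, Finset.mem_insert, Finset.mem_insert]
            rcases hcl v hvQ w (hN1 hw) (hN2 w hw) with h | h | h
            · exact Or.inr (Or.inr h)
            · exact Or.inr (Or.inl h)
            · exact Or.inl h)
        by_cases hby : b = y
        · exact ⟨q1, h11, h12, h13, by rw [h14, hby], fun v hv => hZQZ (h15 v hv), h16⟩
        · -- continue from `b` to `y` outside `Q`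
          have hr1 : Reach G H b y := hT2 b hbZ hbx
          have hr2 : Reach G (H \ Q) b y := by
            have h1 := retract_reach (G := G) (G' := G) (W := H) (W' := H \ Q)
              (fun v => if v ∈ Q then b else v) ?_ hr1
            · simpa [hbQ, hyQ] using h1
            · intro v hv w hw hvw
              have hwx : w ≠ x := Finset.ne_of_mem_erase hw
              have hvx : v ≠ x := Finset.ne_of_mem_erase hv
              by_cases hvQ : v ∈ Q
              · by_cases hwQ : w ∈ Q
                · left; simp [hvQ, hwQ]
                · left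
                  rcases hcl v hvQ w (Finset.mem_of_mem_erase hw) hvw with h | h | h
                  · exact absurd h hwQ
                  · simp [hvQ, h]
                  · exact absurd h hwx
              · by_cases hwQ : w ∈ Q
                · left
                  rcases hcl w hwQ v (Finset.mem_of_mem_erase hv) hvw.symm with h | h | h
                  · exact absurd h hvQ
                  · simp [hwQ, h]
                  · exact absurd h hvx
                · right
                  simp [hvQ, hwQ, hv, hw, hvw]
          have hbHQ : b ∈ H \ Q := Finset.mem_sdiff.2 ⟨hbH, hbQ⟩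
          obtain ⟨q2, h21, h22, h23, h24, h25⟩ := hr2.path hbHQ
          rcases q2 with _ | ⟨b', q2⟩
          · simp at h23
          · have hbb' : b' = b := by simpa using h23
            subst hbb'
            obtain ⟨g1, g2, g3, g4⟩ := glue_path h11 h12 h13 h14 h21 h22 h24 (by
              intro v hv hv2
              have h1 := h15 v hv
              have h2 := h25 v (List.mem_cons_of_mem _ hv2)
              rw [Finset.mem_sdiff] at h2
              rw [hZQ, Finset.mem_insert, Finset.mem_insert] at h1
              rcases h1 with h | h | h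
              · exact (Finset.ne_of_mem_erase h2.1) h
              · rw [h] at hv2
                exact (List.nodup_cons.1 h21).1 hv2
              · exact h2.2 h)
            refine ⟨q1 ++ q2, g1, g2, g3, g4, ?_, ?_⟩
            · intro v hv
              rcases List.mem_append.1 hv with h | h
              · exact hZQZ (h15 v h)
              · exact Finset.mem_of_mem_erase (Finset.mem_sdiff.1
                  (h25 v (List.mem_cons_of_mem _ h))).1
            · rw [List.length_append]
              omega
      · -- case (IIb)
        push Not at hIIa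
        have hQS : Q ⊆ S := hIIa
        set Z' := Z \ Q with hZ'
        have hZ'card : Z'.card + Q.card = Z.card := by
          rw [hZ']
          exact Finset.card_sdiff_add_card_eq_card (fun v hv => (hQsub v hv).1)
        have hQpos : 0 < Q.card := Finset.card_pos.2 ⟨u, huQ⟩
        have hScard : (S \ Q).card + Q.card = S.card := Finset.card_sdiff_add_card_eq_card hQS
        have hxZ' : x ∈ Z' := Finset.mem_sdiff.2 ⟨hx, hxQ⟩
        have hyZ' : y ∈ Z' := Finset.mem_sdiff.2 ⟨hy, hyQ⟩
        have hbZ' : b ∈ Z' := Finset.mem_sdiff.2 ⟨hbZ, hbQ⟩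
        have hR2 : ∀ z, z ≠ b → ∀ v w, v ∉ Q → w ∉ Q → Reach G (Z.erase z) v w →
            Reach (addE G x b) (Z'.erase z) v w := by
          intro z hzb v w hvQ hwQ h
          have h1 := retract_reach (G := G) (G' := addE G x b) (W := Z.erase z)
            (W' := Z'.erase z) (fun v => if v ∈ Q then b else v) ?_ h
          · simpa [hvQ, hwQ] using h1
          · intro v hv w hw hvw
            have hvZ := Finset.mem_of_mem_erase hv
            have hwZ := Finset.mem_of_mem_erase hw
            have hvz := Finset.ne_of_mem_erase hv
            have hwz := Finset.ne_of_mem_erase hw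
            have hbz : b ∈ Z'.erase z := Finset.mem_erase.2 ⟨hzb.symm, hbZ'⟩
            by_cases hvQ : v ∈ Q
            · by_cases hwQ : w ∈ Q
              · left; simp [hvQ, hwQ]
              · rcases hcl v hvQ w hwZ hvw with h | h | h
                · exact absurd h hwQ
                · left; simp [hvQ, h]
                · right
                  simp only [hvQ, hwQ, if_true, if_false]
                  refine ⟨hbz, Finset.mem_erase.2 ⟨hwz, Finset.mem_sdiff.2 ⟨hwZ, hwQ⟩⟩, ?_⟩
                  rw [addE_adj hbx.symm]
                  exact Or.inr (Or.inr ⟨rfl, h⟩)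
            · by_cases hwQ : w ∈ Q
              · rcases hcl w hwQ v hvZ hvw.symm with h | h | h
                · exact absurd h hvQ
                · left; simp [hwQ, h]
                · right
                  simp only [hvQ, hwQ, if_true, if_false]
                  refine ⟨Finset.mem_erase.2 ⟨hvz, Finset.mem_sdiff.2 ⟨hvZ, hvQ⟩⟩, hbz, ?_⟩
                  rw [addE_adj hbx.symm]
                  exact Or.inr (Or.inl ⟨h, rfl⟩)
              · right
                simp only [hvQ, hwQ, if_false]
                refine ⟨Finset.mem_erase.2 ⟨hvz, Finset.mem_sdiff.2 ⟨hvZ, hvQ⟩⟩,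
                  Finset.mem_erase.2 ⟨hwz, Finset.mem_sdiff.2 ⟨hwZ, hwQ⟩⟩, ?_⟩
                rw [addE_adj hbx.symm]
                exact Or.inl hvw
        have hR3 : ∀ v w, v ∉ Q → w ∉ Q → Reach G (Z.erase b) v w →
            Reach (addE G x b) (Z'.erase b) v w := by
          intro v w hvQ hwQ h
          have h1 := retract_reach (G := G) (G' := addE G x b) (W := Z.erase b)
            (W' := Z'.erase b) (fun v => if v ∈ Q then x else v) ?_ h
          · simpa [hvQ, hwQ] using h1
          · intro v hv w hw hvw
            have hvZ := Finset.mem_of_mem_erase hv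
            have hwZ := Finset.mem_of_mem_erase hw
            have hvz := Finset.ne_of_mem_erase hv
            have hwz := Finset.ne_of_mem_erase hw
            by_cases hvQ : v ∈ Q
            · by_cases hwQ : w ∈ Q
              · left; simp [hvQ, hwQ]
              · rcases hcl v hvQ w hwZ hvw with h | h | h
                · exact absurd h hwQ
                · exact absurd h hwz
                · left; simp [hvQ, h]
            · by_cases hwQ : w ∈ Q
              · rcases hcl w hwQ v hvZ hvw.symm with h | h | h
                · exact absurd h hvQ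
                · exact absurd h hvz
                · left; simp [hwQ, h]
              · right
                simp only [hvQ, hwQ, if_false]
                refine ⟨Finset.mem_erase.2 ⟨hvz, Finset.mem_sdiff.2 ⟨hvZ, hvQ⟩⟩,
                  Finset.mem_erase.2 ⟨hwz, Finset.mem_sdiff.2 ⟨hwZ, hwQ⟩⟩, ?_⟩
                rw [addE_adj hbx.symm]
                exact Or.inl hvw
        have hTC' : TC (addE G x b) Z' x y := by
          refine ⟨?_, ?_, ?_⟩
          · intro z hz hzx hzy v hv hvz
            rw [hZ', Finset.mem_sdiff] at hz hv
            have h1 := hT1 z hz.1 hzx hzy v hv.1 hvz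
            by_cases hzb : z = b
            · rw [hzb] at h1 ⊢
              rcases h1 with h1 | h1
              · exact Or.inl (hR3 v x hv.2 hxQ h1)
              · exact Or.inr (hR3 v y hv.2 hyQ h1)
            · rcases h1 with h1 | h1
              · exact Or.inl (hR2 z hzb v x hv.2 hxQ h1)
              · exact Or.inr (hR2 z hzb v y hv.2 hyQ h1)
          · intro v hv hvx
            rw [hZ', Finset.mem_sdiff] at hv
            exact hR2 x hbx.symm v y hv.2 hyQ (hT2 v hv.1 hvx)
          · intro v hv hvy
            rw [hZ', Finset.mem_sdiff] at hv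
            have h1 := hT3 v hv.1 hvy
            by_cases hyb : y = b
            · have h2 := hR3 v x hv.2 hxQ (by rw [← hyb]; exact h1)
              rw [hyb]
              exact h2
            · exact hR2 y hyb v x hv.2 hxQ h1
        obtain ⟨q, h1, h2, h3, h4, h5, h6⟩ := ih (addE G x b) Z' x y (S \ Q) (d - Q.card)
          (by omega) hxZ' hyZ' hxy hTC'
          ⟨u0, Finset.mem_sdiff.2 ⟨hu0Z, fun h => hu0S (hQS h)⟩, hu0x, hu0y,
            fun h => hu0S (Finset.mem_sdiff.1 h).1⟩
          (by
            intro v hv hvx hvy hvS
            rw [hZ', Finset.mem_sdiff] at hv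
            obtain ⟨N, hN1, hN2, hN3⟩ := hdeg v hv.1 hvx hvy
              (fun h => hvS (Finset.mem_sdiff.2 ⟨h, hv.2⟩))
            refine ⟨N \ Q, ?_, ?_, ?_⟩
            · exact Finset.sdiff_subset_sdiff hN1 (Finset.Subset.refl _)
            · intro w hw
              rw [addE_adj hbx.symm]
              exact Or.inl (hN2 w (Finset.mem_sdiff.1 hw).1)
            · have := Finset.le_card_sdiff Q N
              omega)
        have hlen : 1 ≤ q.length := by
          rcases q with _ | ⟨c, q⟩
          · simp at h3
          · simp
        -- chain in `G`, except possibly for the first step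
        rcases q with _ | ⟨x0, q⟩
        · simp at h3
        · have hx0 : x0 = x := by simpa using h3
          subst hx0
          have hxq : x0 ∉ q := (List.nodup_cons.1 h1).1
          have hqch : q.IsChain G.Adj := by
            have h7 : q.IsChain (addE G x0 b).Adj := h2.tail
            rw [List.isChain_iff_getElem] at h7 ⊢
            intro i hi
            have h8 := h7 i hi
            rw [addE_adj hbx.symm] at h8
            rcases h8 with h8 | h8 | h8
            · exact h8
            · exact absurd (h8.1 ▸ List.getElem_mem _) hxq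
            · exact absurd (h8.2 ▸ List.getElem_mem _) hxq
          rcases q with _ | ⟨c, q⟩
          · simp only [List.getLast?_singleton, Option.some.injEq] at h4
            exact absurd h4 hxy
          · have h9 := (List.isChain_cons_cons.1 h2).1
            rw [addE_adj hbx.symm] at h9
            by_cases hxc : G.Adj x0 c
            · refine ⟨x0 :: c :: q, h1, ?_, by simp, h4, ?_, ?_⟩
              · exact List.isChain_cons_cons.2 ⟨hxc, hqch⟩
              · intro v hv
                exact (Finset.mem_sdiff.1 (h5 v hv)).1
              · omega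
            · have hcb : c = b := by
                rcases h9 with h9 | h9 | h9
                · exact absurd h9 hxc
                · exact h9.2
                · exact absurd h9.1.symm (hbx.symm ∘ Eq.symm)
              subst hcb
              -- a path from `x` to `b` through `Q`
              have hr : Reach G ZQ x0 c :=
                Relation.ReflTransGen.trans
                  (Reach.symm ((hQx u huQ).mono (Finset.erase_subset _ _)))
                  ((hQb u huQ).mono (Finset.erase_subset _ _))
              obtain ⟨p, p1, p2, p3, p4, p5⟩ := hr.path (by rw [hZQ]; simp)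
              have hplen : 2 ≤ p.length := by
                rcases p with _ | ⟨e, _ | ⟨e', p⟩⟩
                · simp at p3
                · simp at p3 p4
                  exact absurd (p3.symm.trans p4) hbx.symm
                · simp
              obtain ⟨g1, g2, g3, g4⟩ := glue_path p1 p2 p3 p4 (List.nodup_cons.1 h1).2 hqch
                (by rw [List.getLast?_cons_cons] at h4; exact h4) (by
                intro v hv hv2
                have hh1 := p5 v hv
                have hh2 := h5 v (List.mem_cons_of_mem _ (List.mem_cons_of_mem _ hv2))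
                rw [hZ', Finset.mem_sdiff] at hh2
                rw [hZQ, Finset.mem_insert, Finset.mem_insert] at hh1
                rcases hh1 with h | h | h
                · rw [h] at hv2
                  exact hxq (List.mem_cons_of_mem _ hv2)
                · rw [h] at hv2
                  exact (List.nodup_cons.1 (List.nodup_cons.1 h1).2).1 hv2
                · exact hh2.2 h)
              refine ⟨p ++ q, g1, g2, g3, g4, ?_, ?_⟩
              · intro v hv
                rcases List.mem_append.1 hv with h | h
                · exact hZQZ (p5 v h)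
                · exact (Finset.mem_sdiff.1
                    (h5 v (List.mem_cons_of_mem _ (List.mem_cons_of_mem _ h)))).1
              · simp only [List.length_append, List.length_cons] at h6 ⊢
                omega

/-- Erdos-Gallai with exceptional vertices. -/
theorem eg_path {G : SimpleGraph V} [DecidableRel G.Adj] {Z : Finset V} {x y : V} (hx : x ∈ Z)
    (hy : y ∈ Z) (hxy : x ≠ y) (hTC : TC G Z x y) (S : Finset V)
    (hex : ∃ u ∈ Z, u ≠ x ∧ u ≠ y ∧ u ∉ S) {d : ℕ}
    (hdeg : ∀ u ∈ Z, u ≠ x → u ≠ y → u ∉ S → d ≤ dU G Z u) :
    ∃ q : List V, q.Nodup ∧ q.IsChain G.Adj ∧ q.head? = some x ∧ q.getLast? = some y ∧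
      (∀ v ∈ q, v ∈ Z) ∧ d + 1 ≤ q.length + S.card := by
  refine eg_aux Z.card G Z x y S d le_rfl hx hy hxy hTC hex ?_
  intro u hu hux huy huS
  exact ⟨Z.filter (fun w => G.Adj u w), Finset.filter_subset _ _,
    fun w hw => (Finset.mem_filter.1 hw).2, hdeg u hu hux huy huS⟩

/-- In a 2-connected set any two vertices are `TC`. -/
theorem tc_of_twoConn {G : SimpleGraph V} {Z : Finset V}
    (h2 : ∀ z ∈ Z, ∀ u ∈ Z, u ≠ z → ∀ w ∈ Z, w ≠ z → Reach G (Z.erase z) u w)
    {x y : V} (hx : x ∈ Z) (hy : y ∈ Z) (hxy : x ≠ y) : TC G Z x y := by
  refine ⟨?_, ?_, ?_⟩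
  · intro z hz hzx hzy u hu huz
    exact Or.inl (h2 z hz u hu huz x hx hzx.symm)
  · intro u hu hux
    exact h2 x hx u hu hux y hy hxy.symm
  · intro u hu huy
    exact h2 y hy u hu huy x hx hxy

end Pool.Agent.H19P
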