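import Pool.Agent.H19P.EG

/-! Long links in connected sets with cut vertices and optional vertices (no block theory). -/

namespace Pool.Agent.H19P

open List Pool.Agent.TF82

universe u

variable {V : Type u} [DecidableEq V]

/-- a connected set -/
def ConnS (G : SimpleGraph V) (H : Finset V) : Prop := ∀ u ∈ H, ∀ w ∈ H, Reach G H u w

/-- a good vertex: not optional and not a cut vertex of `H` -/
def Good (G : SimpleGraph V) (H S : Finset V) (g : V) : Prop :=
  g ∈ H ∧ g ∉ S ∧ ConnS G (H.erase g)

/-- `u` lies in the block of `G[H] + x x'` that contains the edge `x x'` -/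
def InB (G : SimpleGraph V) (H : Finset V) (x x' u : V) : Prop :=
  u ∈ H ∧ ∀ z ∈ H, z ≠ u → Reach G (H.erase z) u x ∨ Reach G (H.erase z) u x'

omit [DecidableEq V] in
theorem list_reach {G : SimpleGraph V} {W : Finset V} : ∀ (q : List V) {a b : V},
    q.IsChain G.Adj → (∀ v ∈ q, v ∈ W) → q.head? = some a → q.getLast? = some b →
    Reach G W a b := by
  intro q
  induction q with
  | nil => intro a b _ _ h; simp at h
  | cons c q ih =>
    intro a b h1 h2 h3 h4
    have hc : c = a := by simpa using h3
    subst hc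
    rcases q with _ | ⟨d, q⟩
    · have hb : c = b := by simpa using h4
      rw [hb]
      exact Relation.ReflTransGen.refl
    · have h5 := List.isChain_cons_cons.1 h1
      rw [List.getLast?_cons_cons] at h4
      have h6 : Reach G W d b :=
        ih h5.2 (fun v hv => h2 v (List.mem_cons_of_mem _ hv)) (by simp) h4
      exact Relation.ReflTransGen.head ⟨h2 c (by simp), h2 d (by simp), h5.1⟩ h6

theorem InB.mem {G : SimpleGraph V} {H : Finset V} {x x' u : V} (h : InB G H x x' u) : u ∈ H := h.1

theorem inB_left {G : SimpleGraph V} {H : Finset V} {x x' : V} (hx : x ∈ H) : InB G H x x' x :=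
  ⟨hx, fun _ _ _ => Or.inl Relation.ReflTransGen.refl⟩

theorem inB_right {G : SimpleGraph V} {H : Finset V} {x x' : V} (hx : x' ∈ H) :
    InB G H x x' x' :=
  ⟨hx, fun _ _ _ => Or.inr Relation.ReflTransGen.refl⟩

theorem not_inB {G : SimpleGraph V} {H : Finset V} {x x' c : V} (hc : c ∈ H)
    (h : ¬ InB G H x x' c) :
    ∃ z ∈ H, z ≠ c ∧ ¬ Reach G (H.erase z) c x ∧ ¬ Reach G (H.erase z) c x' := by
  unfold InB at h
  push Not at h
  obtain ⟨z, h1, h2, h3, h4⟩ := h hc
  exact ⟨z, h1, h2, h3, h4⟩

/-- simple paths from the block to `x` or `x'` stay in the block -/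
theorem inB_path {G : SimpleGraph V} {H : Finset V} {x x' u t : V} (hu : InB G H x x' u)
    (ht : t = x ∨ t = x') {q : List V} (h1 : q.Nodup) (h2 : q.IsChain G.Adj)
    (h3 : q.head? = some u) (h4 : q.getLast? = some t) (h5 : ∀ v ∈ q, v ∈ H) :
    ∀ v ∈ q, InB G H x x' v := by
  intro c hc
  by_contra hcB
  obtain ⟨z, hz, hzc, hn1, hn2⟩ := not_inB (h5 c hc) hcB
  obtain ⟨q1, q2, rfl⟩ := List.append_of_mem hc
  have hlast : (c :: q2).getLast? = some t := by
    rw [List.getLast?_append] at h4
    rcases hh : (c :: q2).getLast? with _ | w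
    · simp at hh
    · rw [hh] at h4
      simpa using h4
  have hch2 : (c :: q2).IsChain G.Adj := (List.isChain_append.1 h2).2.1
  have hzq2 : z ∈ c :: q2 := by
    by_contra hzq
    have h6 : Reach G (H.erase z) c t := list_reach (c :: q2) hch2 (by
      intro v hv
      exact Finset.mem_erase.2 ⟨fun h => hzq (h ▸ hv), h5 v (List.mem_append_right _ hv)⟩)
      (by simp) hlast
    rcases ht with rfl | rfl
    · exact hn1 h6
    · exact hn2 h6
  have hzq1 : z ∉ q1 := fun h => (List.nodup_append.1 h1).2.2 z h z hzq2 rfl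
  -- `u` reaches `c` avoiding `z`
  have h7 : Reach G (H.erase z) u c := by
    have h8 : (q1 ++ [c]).IsChain G.Adj := by
      have : q1 ++ c :: q2 = (q1 ++ [c]) ++ q2 := by simp
      rw [this] at h2
      exact (List.isChain_append.1 h2).1
    refine list_reach (q1 ++ [c]) h8 ?_ ?_ (by simp)
    · intro v hv
      rw [List.mem_append] at hv
      rcases hv with hv | hv
      · exact Finset.mem_erase.2 ⟨fun h => hzq1 (h ▸ hv), h5 v (List.mem_append_left _ hv)⟩
      · have : v = c := by simpa using hv
        rw [this]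
        exact Finset.mem_erase.2 ⟨hzc.symm, h5 c (by simp)⟩
    · rcases q1 with _ | ⟨e, q1⟩
      · simpa using h3
      · simpa using h3
  have hzu : z ≠ u := by
    intro h
    by_cases huc : u = c
    · exact hzc (h.trans huc)
    · exact (Finset.ne_of_mem_erase (reach_ne h7 huc).1) h.symm
  rcases hu.2 z hz hzu with h8 | h8
  · exact hn1 (Relation.ReflTransGen.trans (Reach.symm h7) h8)
  · exact hn2 (Relation.ReflTransGen.trans (Reach.symm h7) h8)

/-- a vertex on a simple path from `x` to `x'` lies in the block -/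
theorem inB_of_path {G : SimpleGraph V} {H : Finset V} {x x' g : V} {q : List V} (h1 : q.Nodup)
    (h2 : q.IsChain G.Adj) (h3 : q.head? = some x) (h4 : q.getLast? = some x')
    (h5 : ∀ v ∈ q, v ∈ H) (hg : g ∈ q) : InB G H x x' g := by
  refine ⟨h5 g hg, ?_⟩
  intro z hz hzg
  obtain ⟨q1, q2, rfl⟩ := List.append_of_mem hg
  by_cases hzq : z ∈ q1
  · right
    have hzq2 : z ∉ g :: q2 := fun h => (List.nodup_append.1 h1).2.2 z hzq z h rfl
    refine list_reach (g :: q2) (List.isChain_append.1 h2).2.1 ?_ (by simp) ?_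
    · intro v hv
      exact Finset.mem_erase.2 ⟨fun h => hzq2 (h ▸ hv), h5 v (List.mem_append_right _ hv)⟩
    · rw [List.getLast?_append] at h4
      rcases hh : (g :: q2).getLast? with _ | w
      · simp at hh
      · rw [hh] at h4
        simpa using h4
  · left
    apply Reach.symm
    have h8 : (q1 ++ [g]).IsChain G.Adj := by
      have : q1 ++ g :: q2 = (q1 ++ [g]) ++ q2 := by simp
      rw [this] at h2
      exact (List.isChain_append.1 h2).1
    refine list_reach (q1 ++ [g]) h8 ?_ ?_ (by simp)
    · intro v hv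
      rw [List.mem_append] at hv
      rcases hv with hv | hv
      · exact Finset.mem_erase.2 ⟨fun h => hzq (h ▸ hv), h5 v (List.mem_append_left _ hv)⟩
      · have : v = g := by simpa using hv
        rw [this]
        exact Finset.mem_erase.2 ⟨hzg.symm, h5 g (by simp)⟩
    · rcases q1 with _ | ⟨e, q1⟩
      · simpa using h3
      · simpa using h3

/-- the hanging part at `s` that contains `c` -/
noncomputable def hang (G : SimpleGraph V) (H : Finset V) (s c : V) : Finset V :=
  @Finset.filter V (fun w => Reach G (H.erase s) c w) (Classical.decPred _) (H.erase s)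

theorem mem_hang {G : SimpleGraph V} {H : Finset V} {s c w : V} :
    w ∈ hang G H s c ↔ (w ≠ s ∧ w ∈ H) ∧ Reach G (H.erase s) c w := by
  unfold hang
  rw [@Finset.mem_filter _ _ (Classical.decPred _), Finset.mem_erase]

theorem hang_closed {G : SimpleGraph V} {H : Finset V} {s c w w' : V} (hw : w ∈ hang G H s c)
    (hw' : w' ∈ H) (hadj : G.Adj w w') : w' ∈ hang G H s c ∨ w' = s := by
  by_cases h : w' = s
  · exact Or.inr h
  · left
    rw [mem_hang] at hw ⊢
    exact ⟨⟨h, hw'⟩, Relation.ReflTransGen.tail hw.2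
      ⟨Finset.mem_erase.2 hw.1, Finset.mem_erase.2 ⟨h, hw'⟩, hadj⟩⟩

/-- a neighbour `c` outside the block of a block vertex `s` is cut off by `s` -/
theorem cut_off {G : SimpleGraph V} {H : Finset V} {x x' s c : V} (hs : InB G H x x' s)
    (hc : c ∈ H) (hcB : ¬ InB G H x x' c) (hadj : G.Adj s c) :
    ¬ Reach G (H.erase s) c x ∧ ¬ Reach G (H.erase s) c x' := by
  obtain ⟨z, hz, hzc, hn1, hn2⟩ := not_inB hc hcB
  by_cases hzs : z = s
  · rw [hzs] at hn1 hn2
    exact ⟨hn1, hn2⟩
  · exfalso
    have h1 : Reach G (H.erase z) c s := Relation.ReflTransGen.single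
      ⟨Finset.mem_erase.2 ⟨hzc.symm, hc⟩, Finset.mem_erase.2 ⟨fun h => hzs h.symm, hs.1⟩,
        hadj.symm⟩
    rcases hs.2 z hz hzs with h2 | h2
    · exact hn1 (Relation.ReflTransGen.trans h1 h2)
    · exact hn2 (Relation.ReflTransGen.trans h1 h2)

theorem hang_disj_block {G : SimpleGraph V} {H : Finset V} {x x' s c u : V}
    (hs : InB G H x x' s) (hc : c ∈ H) (hcB : ¬ InB G H x x' c) (hadj : G.Adj s c)
    (hu : InB G H x x' u) : u ∉ hang G H s c := by
  intro h
  rw [mem_hang] at h
  obtain ⟨hn1, hn2⟩ := cut_off hs hc hcB hadj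
  rcases hu.2 s hs.1 h.1.1.symm with h2 | h2
  · exact hn1 (Relation.ReflTransGen.trans h.2 h2)
  · exact hn2 (Relation.ReflTransGen.trans h.2 h2)

theorem hang_disj {G : SimpleGraph V} {H : Finset V} {x x' s c s' c' : V}
    (hs : InB G H x x' s) (hc : c ∈ H) (hcB : ¬ InB G H x x' c) (hadj : G.Adj s c)
    (hs' : InB G H x x' s') (hc' : c' ∈ H) (hcB' : ¬ InB G H x x' c') (hadj' : G.Adj s' c')
    (hss : s ≠ s') {w : V} (hw : w ∈ hang G H s c) : w ∉ hang G H s' c' := by
  intro hw'
  -- walk from `w` to `c` inside `hang s c`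
  have hcs : c ≠ s := hadj.ne'
  have h1 : Reach G (H.erase s) w c := Reach.symm (mem_hang.1 hw).2
  have h2 : ∀ v, Reach G (H.erase s) w v → v ∈ hang G H s c ∧ v ∈ hang G H s' c' := by
    intro v hv
    unfold Reach at hv
    induction hv with
    | refl => exact ⟨hw, hw'⟩
    | @tail a d _ had ih =>
      obtain ⟨i1, i2⟩ := ih
      have hdH : d ∈ H := Finset.mem_of_mem_erase had.2.1
      have hds : d ≠ s := Finset.ne_of_mem_erase had.2.1
      have j1 : d ∈ hang G H s c := by
        rcases hang_closed i1 hdH had.2.2 with h | h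
        · exact h
        · exact absurd h hds
      refine ⟨j1, ?_⟩
      rcases hang_closed i2 hdH had.2.2 with h | h
      · exact h
      · exfalso
        rw [h] at j1
        exact hang_disj_block hs hc hcB hadj hs' j1
  have h3 := (h2 c h1).2
  rcases hang_closed h3 hs.1 hadj.symm with h | h
  · exact hang_disj_block hs' hc' hcB' hadj' hs h
  · exact hss h

open Classical in
/-- LINK: in a set `H` with surplus `b` the ends of a block with a good vertex are joined by a
path with at least `b + 3` vertices. -/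
theorem link_long {G : SimpleGraph V} [DecidableRel G.Adj] {H S : Finset V} {b : ℕ}
    (hK : ∀ I : Finset V, I ⊆ H \ S → G.IsIndepSet (I : Set V) → ∀ v ∈ I,
      I.card + S.card + b + 1 ≤ dU G H v)
    {x x' : V} (hx : x ∈ H) (hx' : x' ∈ H) (hxx' : x ≠ x') {g : V} (hg : Good G H S g)
    (hgB : InB G H x x' g) :
    ∃ q : List V, q.Nodup ∧ q.IsChain G.Adj ∧ q.head? = some x ∧ q.getLast? = some x' ∧
      (∀ v ∈ q, v ∈ H) ∧ b + 3 ≤ q.length := by
  classical
  set B := H.filter (fun u => InB G H x x' u) with hB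
  have hBmem : ∀ u, u ∈ B ↔ InB G H x x' u := by
    intro u
    rw [hB, Finset.mem_filter]
    exact ⟨fun h => h.2, fun h => ⟨h.1, h⟩⟩
  have hxB : x ∈ B := (hBmem x).2 (inB_left hx)
  have hx'B : x' ∈ B := (hBmem x').2 (inB_right hx')
  have hBH : B ⊆ H := Finset.filter_subset _ _
  -- reachability inside `B`
  have hin : ∀ z u t, InB G H x x' u → u ≠ z → (t = x ∨ t = x') → Reach G (H.erase z) u t →
      Reach G (B.erase z) u t := by
    intro z u t hu huz ht h
    obtain ⟨q, h1, h2, h3, h4, h5⟩ := h.path (Finset.mem_erase.2 ⟨huz, hu.1⟩)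
    have h6 := inB_path hu ht h1 h2 h3 h4 (fun v hv => Finset.mem_of_mem_erase (h5 v hv))
    exact list_reach q h2 (fun v hv => Finset.mem_erase.2
      ⟨Finset.ne_of_mem_erase (h5 v hv), (hBmem v).2 (h6 v hv)⟩) h3 h4
  have hTC : TC G B x x' := by
    refine ⟨?_, ?_, ?_⟩
    · intro z hz hzx hzx' u hu huz
      rcases ((hBmem u).1 hu).2 z (hBH hz) huz.symm with h | h
      · exact Or.inl (hin z u x ((hBmem u).1 hu) huz (Or.inl rfl) h)
      · exact Or.inr (hin z u x' ((hBmem u).1 hu) huz (Or.inr rfl) h)
    · intro u hu hux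
      rcases ((hBmem u).1 hu).2 x hx hux.symm with h | h
      · exact absurd rfl (Finset.ne_of_mem_erase (reach_ne h hux).2)
      · exact hin x u x' ((hBmem u).1 hu) hux (Or.inr rfl) h
    · intro u hu hux'
      rcases ((hBmem u).1 hu).2 x' hx' hux'.symm with h | h
      · exact hin x' u x ((hBmem u).1 hu) hux' (Or.inl rfl) h
      · exact absurd rfl (Finset.ne_of_mem_erase (reach_ne h hux').2)
  -- low vertices
  set L1 := B.filter (fun s => s ∉ S ∧ ∃ c ∈ H, c ∉ B ∧ G.Adj s c) with hL1
  set low := (B ∩ S) ∪ L1 with hlow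
  have hlowcard : low.card = (B ∩ S).card + L1.card := by
    rw [hlow]
    apply Finset.card_union_of_disjoint
    rw [Finset.disjoint_left]
    intro s h1 h2
    rw [hL1, Finset.mem_filter] at h2
    exact h2.2.1 (Finset.mem_inter.1 h1).2
  -- representatives of the hanging parts
  have hcex : ∀ s : V, ∃ c : V, s ∈ L1 → c ∈ H ∧ c ∉ B ∧ G.Adj s c := by
    intro s
    by_cases hs : s ∈ L1
    · have h := hs
      rw [hL1, Finset.mem_filter] at h
      obtain ⟨c, h1, h2, h3⟩ := h.2.2
      exact ⟨c, fun _ => ⟨h1, h2, h3⟩⟩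
    · exact ⟨s, fun h => absurd h hs⟩
  choose c hc using hcex
  have hsB : ∀ s ∈ L1, InB G H x x' s := by
    intro s hs
    rw [hL1, Finset.mem_filter] at hs
    exact (hBmem s).1 hs.1
  have hcB : ∀ s ∈ L1, ¬ InB G H x x' (c s) := fun s hs h => (hc s hs).2.1 ((hBmem _).2 h)
  have hcmem : ∀ s ∈ L1, c s ∈ hang G H s (c s) := by
    intro s hs
    rw [mem_hang]
    exact ⟨⟨(hc s hs).2.2.ne', (hc s hs).1⟩, Relation.ReflTransGen.refl⟩
  have hnoadj : ∀ s ∈ L1, ∀ s' ∈ L1, s ≠ s' → ¬ G.Adj (c s) (c s') ∧ c s ≠ c s' := by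
    intro s hs s' hs' hss
    constructor
    · intro hadj
      rcases hang_closed (hcmem s hs) (hc s' hs').1 hadj with h | h
      · exact hang_disj (hsB s hs) (hc s hs).1 (hcB s hs) (hc s hs).2.2 (hsB s' hs')
          (hc s' hs').1 (hcB s' hs') (hc s' hs').2.2 hss h (hcmem s' hs')
      · exact (hcB s' hs') (h ▸ hsB s hs)
    · intro h
      exact hang_disj (hsB s hs) (hc s hs).1 (hcB s hs) (hc s hs).2.2 (hsB s' hs')
          (hc s' hs').1 (hcB s' hs') (hc s' hs').2.2 hss (hcmem s hs) (h ▸ hcmem s' hs')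
  set R := L1.image c with hR
  have hRcard : R.card = L1.card := by
    rw [hR]
    apply Finset.card_image_of_injOn
    intro s hs s' hs' h
    by_contra hne
    exact (hnoadj s hs s' hs' hne).2 h
  have hRB : ∀ w ∈ R, w ∈ H ∧ w ∉ B := by
    intro w hw
    rw [hR, Finset.mem_image] at hw
    obtain ⟨s, hs, rfl⟩ := hw
    exact ⟨(hc s hs).1, (hc s hs).2.1⟩
  -- degrees of the vertices that are not low
  have hdeg : ∀ u ∈ B, u ∉ low → b + 2 + low.card ≤ dU G B u := by
    intro u hu hulow
    have huS : u ∉ S := fun h => hulow (by rw [hlow]; simp [hu, h])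
    have hunb : ∀ w ∈ H, G.Adj u w → w ∈ B := by
      intro w hw huw
      by_contra hwB
      apply hulow
      rw [hlow, Finset.mem_union]
      right
      rw [hL1, Finset.mem_filter]
      exact ⟨hu, huS, w, hw, hwB, huw⟩
    have hind : G.IsIndepSet ((insert u (R \ S) : Finset V) : Set V) := by
      intro a ha a' ha' hne
      rw [Finset.mem_coe, Finset.mem_insert] at ha ha'
      have key : ∀ w ∈ R \ S, ¬ G.Adj u w := by
        intro w hw huw
        have h1 := hRB w (Finset.mem_sdiff.1 hw).1
        exact h1.2 (hunb w h1.1 huw)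
      rcases ha with ha | ha
      · rcases ha' with ha' | ha'
        · exact absurd (ha.trans ha'.symm) hne
        · rw [ha]
          exact key a' ha'
      · rcases ha' with ha' | ha'
        · rw [ha']
          exact fun h => key a ha h.symm
        · have h1 := (Finset.mem_sdiff.1 ha).1
          have h2 := (Finset.mem_sdiff.1 ha').1
          rw [hR, Finset.mem_image] at h1 h2
          obtain ⟨s, hs, rfl⟩ := h1
          obtain ⟨s', hs', rfl⟩ := h2
          have hss : s ≠ s' := fun h => hne (by rw [h])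
          exact (hnoadj s hs s' hs' hss).1
    have hsub : insert u (R \ S) ⊆ H \ S := by
      intro w hw
      rw [Finset.mem_insert] at hw
      rcases hw with hw | hw
      · rw [hw]
        exact Finset.mem_sdiff.2 ⟨hBH hu, huS⟩
      · exact Finset.mem_sdiff.2 ⟨(hRB w (Finset.mem_sdiff.1 hw).1).1, (Finset.mem_sdiff.1 hw).2⟩
    have h1 := hK _ hsub hind u (Finset.mem_insert_self _ _)
    have hcard1 : (insert u (R \ S)).card = (R \ S).card + 1 := by
      apply Finset.card_insert_of_notMem
      intro h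
      exact (hRB u (Finset.mem_sdiff.1 h).1).2 hu
    have hcard2 : (B ∩ S).card + (R ∩ S).card ≤ S.card := by
      rw [← Finset.card_union_of_disjoint]
      · apply Finset.card_le_card
        intro w hw
        rw [Finset.mem_union, Finset.mem_inter, Finset.mem_inter] at hw
        tauto
      · rw [Finset.disjoint_left]
        intro w h2 h3
        exact (hRB w (Finset.mem_inter.1 h3).1).2 (Finset.mem_inter.1 h2).1
    have hcard3 : (R \ S).card + (R ∩ S).card = R.card := by
      rw [Finset.card_sdiff_add_card_inter]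
    have hdd : dU G B u = dU G H u := by
      unfold dU
      congr 1
      ext w
      constructor
      · intro h
        have h' := Finset.mem_filter.1 h
        exact Finset.mem_filter.2 ⟨hBH h'.1, h'.2⟩
      · intro h
        have h' := Finset.mem_filter.1 h
        exact Finset.mem_filter.2 ⟨hunb w h'.1 h'.2, h'.2⟩
    rw [hdd]
    omega
  -- the good vertex is not low
  have hgB' : g ∈ B := (hBmem g).2 hgB
  have hglow : g ∉ low := by
    intro h
    rw [hlow, Finset.mem_union] at h
    rcases h with h | h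
    · exact hg.2.1 (Finset.mem_inter.1 h).2
    · have h1 := hc g h
      obtain ⟨hn1, hn2⟩ := cut_off hgB h1.1 (hcB g h) h1.2.2
      have hcg : c g ∈ H.erase g := Finset.mem_erase.2 ⟨h1.2.2.ne', h1.1⟩
      by_cases hgx : g = x
      · exact hn2 (hg.2.2 _ hcg _ (Finset.mem_erase.2 ⟨fun h => hxx' (hgx.symm.trans h.symm), hx'⟩))
      · exact hn1 (hg.2.2 _ hcg _ (Finset.mem_erase.2 ⟨fun h => hgx h.symm, hx⟩))
  -- a vertex that is neither low nor an end
  have hex : ∃ u ∈ B, u ≠ x ∧ u ≠ x' ∧ u ∉ low := by
    by_cases hgx : g ≠ x ∧ g ≠ x'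
    · exact ⟨g, hgB', hgx.1, hgx.2, hglow⟩
    · have h1 := hdeg g hgB' hglow
      unfold dU at h1
      by_contra hno
      push Not at hno
      have h2 : B.filter (fun w => G.Adj g w) ⊆ low ∪ ({x, x'} : Finset V).erase g := by
        intro w hw
        rw [Finset.mem_filter] at hw
        rw [Finset.mem_union, Finset.mem_erase]
        by_cases hwx : w = x ∨ w = x'
        · right
          refine ⟨hw.2.ne', ?_⟩
          simpa using hwx
        · left
          push Not at hwx
          exact hno w hw.1 hwx.1 hwx.2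
      have h3 := Finset.card_le_card h2
      have h4 := Finset.card_union_le low (({x, x'} : Finset V).erase g)
      have h5 : (({x, x'} : Finset V).erase g).card ≤ 1 := by
        rw [Finset.card_erase_of_mem]
        · have := Finset.card_le_two (a := x) (b := x')
          omega
        · by_cases h : g = x
          · simp [h]
          · have h' : g = x' := by
              by_contra h'
              exact hgx ⟨h, h'⟩
            simp [h']
      omega
  obtain ⟨q, h1, h2, h3, h4, h5, h6⟩ := eg_path hxB hx'B hxx' hTC low hex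
    (d := b + 2 + low.card) (fun u hu _ _ hulow => hdeg u hu hulow)
  exact ⟨q, h1, h2, h3, h4, fun v hv => hBH (h5 v hv), by omega⟩

/-- `x` and `x'` are separated by a good vertex in the sense of blocks: long-linked. -/
def Lk (G : SimpleGraph V) (H S : Finset V) (x x' : V) : Prop :=
  x ≠ x' ∧ ∃ g, Good G H S g ∧ InB G H x x' g

theorem InB.symm {G : SimpleGraph V} {H : Finset V} {x x' u : V} (h : InB G H x x' u) :
    InB G H x' x u := ⟨h.1, fun z hz hzu => (h.2 z hz hzu).symm⟩

theorem Lk.symm {G : SimpleGraph V} {H S : Finset V} {x x' : V} (h : Lk G H S x x') :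
    Lk G H S x' x := by
  obtain ⟨h1, g, h2, h3⟩ := h
  exact ⟨h1.symm, g, h2, h3.symm⟩

/-- the core of transitivity -/
theorem inB_or {G : SimpleGraph V} {H : Finset V} (hconn : ConnS G H) {x x' y g : V}
    (hy : y ∈ H) (hg : InB G H x x' g) : InB G H x y g ∨ InB G H y x' g := by
  by_contra hcon
  push Not at hcon
  obtain ⟨z1, hz1, hz1g, a1, a2⟩ := not_inB hg.1 hcon.1
  obtain ⟨z2, hz2, hz2g, b1, b2⟩ := not_inB hg.1 hcon.2
  -- `g` reaches `x'` without `z1` and `x` without `z2`
  have c1 : Reach G (H.erase z1) g x' := (hg.2 z1 hz1 hz1g).resolve_left a1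
  have c2 : Reach G (H.erase z2) g x := (hg.2 z2 hz2 hz2g).resolve_right b2
  -- walking from `g` towards a vertex `t` that cannot be reached without `z`, we meet `z`
  have meet : ∀ z z' t, z ∈ H → z ≠ g → z' ≠ g → ¬ Reach G (H.erase z) g t →
      Reach G (H.erase z') g t → Reach G ((H.erase z').erase z) g z ∨ Reach G (H.erase z') g z := by
    intro z z' t hz hzg hz'g hn h
    right
    obtain ⟨q, h1, h2, h3, h4, h5⟩ := h.path (by
      by_cases hgt : g = t
      · exact absurd (hgt ▸ Relation.ReflTransGen.refl) hn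
      · exact (reach_ne h hgt).1)
    have hzq : z ∈ q := by
      by_contra hzq
      exact hn (list_reach q h2 (fun v hv => Finset.mem_erase.2
        ⟨fun h => hzq (h ▸ hv), Finset.mem_of_mem_erase (h5 v hv)⟩) h3 h4)
    obtain ⟨q1, q2, rfl⟩ := List.append_of_mem hzq
    have h8 : (q1 ++ [z]).IsChain G.Adj := by
      have : q1 ++ z :: q2 = (q1 ++ [z]) ++ q2 := by simp
      rw [this] at h2
      exact (List.isChain_append.1 h2).1
    refine list_reach (q1 ++ [z]) h8 ?_ ?_ (by simp)
    · intro v hv
      apply h5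
      rw [List.mem_append] at hv ⊢
      rcases hv with hv | hv
      · exact Or.inl hv
      · right
        have : v = z := by simpa using hv
        rw [this]; simp
    · rcases q1 with _ | ⟨e, q1⟩
      · simpa using h3
      · simpa using h3
  by_cases hzz : z1 = z2
  · rw [hzz] at c1
    exact b2 c1
  -- `g` reaches `z1` without `z2`, and `z2` without `z1`
  have d1 : Reach G (H.erase z2) g z1 :=
    (meet z1 z2 x hz1 hz1g hz2g a1 c2).elim (fun h => h.mono (Finset.erase_subset _ _)) id
  have d2 : Reach G (H.erase z1) g z2 :=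
    (meet z2 z1 x' hz2 hz2g hz1g b2 c1).elim (fun h => h.mono (Finset.erase_subset _ _)) id
  -- now take a path from `y` to `g`
  have hyg : y ≠ g := by
    rintro rfl
    exact a2 Relation.ReflTransGen.refl
  obtain ⟨q, h1, h2, h3, h4, h5⟩ := (hconn g hg.1 y hy).path hg.1
  have hz1q : z1 ∈ q := by
    by_contra hzq
    exact a2 (list_reach q h2 (fun v hv => Finset.mem_erase.2
      ⟨fun h => hzq (h ▸ hv), h5 v hv⟩) h3 h4)
  have hz2q : z2 ∈ q := by
    by_contra hzq
    exact b1 (list_reach q h2 (fun v hv => Finset.mem_erase.2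
      ⟨fun h => hzq (h ▸ hv), h5 v hv⟩) h3 h4)
  -- the last of `z1`, `z2` on `q` (from `g` to `y`)
  obtain ⟨q1, q2, rfl⟩ := List.append_of_mem hz1q
  have hlast : (z1 :: q2).getLast? = some y := by
    rw [List.getLast?_append] at h4
    rcases hh : (z1 :: q2).getLast? with _ | w
    · simp at hh
    · rw [hh] at h4
      simpa using h4
  have hch2 : (z1 :: q2).IsChain G.Adj := (List.isChain_append.1 h2).2.1
  by_cases hz2q2 : z2 ∈ q2
  · -- `z2` is the last one: `z2 .. y` avoids `z1`
    obtain ⟨q3, q4, rfl⟩ := List.append_of_mem hz2q2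
    have hlast' : (z2 :: q4).getLast? = some y := by
      have : z1 :: (q3 ++ z2 :: q4) = (z1 :: q3) ++ z2 :: q4 := by simp
      rw [this, List.getLast?_append] at hlast
      rcases hh : (z2 :: q4).getLast? with _ | w
      · simp at hh
      · rw [hh] at hlast
        simpa using hlast
    have hch3 : (z2 :: q4).IsChain G.Adj := by
      have : z1 :: (q3 ++ z2 :: q4) = (z1 :: q3) ++ z2 :: q4 := by simp
      rw [this] at hch2
      exact (List.isChain_append.1 hch2).2.1
    have hz1n : z1 ∉ z2 :: q4 := by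
      have h6 : (z1 :: (q3 ++ z2 :: q4)).Nodup := (List.nodup_append.1 h1).2.1
      intro h
      exact (List.nodup_cons.1 h6).1 (List.mem_append_right _ h)
    have h7 : Reach G (H.erase z1) z2 y := list_reach (z2 :: q4) hch3 (by
      intro v hv
      refine Finset.mem_erase.2 ⟨fun h => hz1n (h ▸ hv), h5 v ?_⟩
      simp only [List.mem_append, List.mem_cons] at hv ⊢
      tauto) (by simp) hlast'
    exact a2 (Relation.ReflTransGen.trans d2 h7)
  · -- `z1 .. y` avoids `z2`
    have h7 : Reach G (H.erase z2) z1 y := list_reach (z1 :: q2) hch2 (by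
      intro v hv
      refine Finset.mem_erase.2 ⟨?_, h5 v (List.mem_append_right _ hv)⟩
      intro h
      rw [h, List.mem_cons] at hv
      rcases hv with hv | hv
      · exact hzz hv.symm
      · exact hz2q2 hv) (by simp) hlast
    exact b1 (Relation.ReflTransGen.trans d1 h7)

/-- being short-linked is transitive -/
theorem not_lk_trans {G : SimpleGraph V} {H S : Finset V} (hconn : ConnS G H) {x x' y : V}
    (hy : y ∈ H) (h1 : ¬ Lk G H S x y) (h2 : ¬ Lk G H S y x') : ¬ Lk G H S x x' := by
  rintro ⟨hne, g, hg, hgB⟩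
  by_cases hxy : x = y
  · rw [hxy] at hne hgB
    exact h2 ⟨hne, g, hg, hgB⟩
  · by_cases hyx' : y = x'
    · rw [← hyx'] at hne hgB
      exact h1 ⟨hne, g, hg, hgB⟩
    · rcases inB_or hconn hy hgB with h | h
      · exact h1 ⟨hxy, g, hg, h⟩
      · exact h2 ⟨hyx', g, hg, h⟩

end Pool.Agent.H19P
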